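import Pool.Agent.P.MP_4ae480_an.Step

set_option autoImplicit false

open MeasureTheory Set Metric
open scoped ENNReal

namespace Pool.Agent.P.MP_4ae480_an

theorem isAddHaar_prod (m : ℕ) : (volume : Measure (V m × ℝ)).IsAddHaarMeasure := by
  rw [Measure.volume_eq_prod]
  infer_instance

theorem exists_weight : ∃ z : ℝ, 0 < z ∧ ∀ (f : ℕ → ℝ≥0∞) (y : ℝ≥0∞), y ≠ 0 → y ≠ ∞ →
    y ≤ ∑' j, f j → ∃ j : ℕ, ENNReal.ofReal (z / ((j : ℝ) + 1) ^ 2) * y ≤ f j := by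
  have hs : Summable fun j : ℕ => 1 / ((j : ℝ) + 1) ^ 2 := by
    have := (summable_nat_add_iff 1).2 (Real.summable_one_div_nat_pow.2 one_lt_two)
    simpa using this
  set Z := ∑' j : ℕ, 1 / ((j : ℝ) + 1) ^ 2 with hZ
  have hZ0 : 0 ≤ Z := tsum_nonneg fun j => by positivity
  refine ⟨1 / (2 * (Z + 1)), by positivity, fun f y hy0 hy hle => ?_⟩
  by_contra hcon
  push Not at hcon
  have h1 : ∑' j, f j ≤ ∑' j : ℕ, ENNReal.ofReal (1 / (2 * (Z + 1)) / ((j : ℝ) + 1) ^ 2) * y :=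
    ENNReal.tsum_le_tsum fun j => (hcon j).le
  rw [ENNReal.tsum_mul_right, ← ENNReal.ofReal_tsum_of_nonneg (fun j => by positivity)
    (by simpa [div_eq_mul_inv] using hs.mul_left (1 / (2 * (Z + 1))))] at h1
  have h2 : ∑' j : ℕ, 1 / (2 * (Z + 1)) / ((j : ℝ) + 1) ^ 2 = 1 / (2 * (Z + 1)) * Z := by
    rw [hZ, ← tsum_mul_left]
    congr 1
    funext j
    ring
  have h3 : ENNReal.ofReal (1 / (2 * (Z + 1)) * Z) < 1 := by
    rw [ENNReal.ofReal_lt_one, div_mul_eq_mul_div, div_lt_one (by positivity)]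
    linarith
  rw [h2] at h1
  have h4 := (ENNReal.mul_lt_mul_iff_left hy0 hy).2 h3
  rw [one_mul] at h4
  exact absurd (hle.trans h1) (not_le.2 h4)

/-- the block scales -/
noncomputable def yy (j : ℕ) : ℝ := (((2 ^ 2 ^ j : ℕ) : ℝ))⁻¹

theorem yy_pos (j : ℕ) : 0 < yy j := by unfold yy; positivity

theorem yy_anti : Antitone yy := by
  intro i j hij
  unfold yy
  refine inv_anti₀ (by positivity) ?_
  exact_mod_cast Nat.pow_le_pow_right two_pos (Nat.pow_le_pow_right two_pos hij)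

theorem exists_block {d : ℝ} (hd : 0 < d) (hd0 : d ≤ yy 0) : ∃ j, yy (j + 1) < d ∧ d ≤ yy j := by
  have h : ∃ j, yy (j + 1) < d := by
    obtain ⟨j, hj⟩ := exists_nat_one_div_lt hd
    refine ⟨j, lt_of_le_of_lt ?_ hj⟩
    unfold yy
    rw [one_div]
    refine inv_anti₀ (by positivity) ?_
    have : j + 1 ≤ 2 ^ 2 ^ (j + 1) :=
      (Nat.lt_two_pow_self.le).trans (Nat.pow_le_pow_right two_pos Nat.lt_two_pow_self.le)
    exact_mod_cast this
  classical
  refine ⟨Nat.find h, Nat.find_spec h, ?_⟩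
  rcases hn : Nat.find h with _ | n
  · exact hd0
  · exact not_lt.1 (Nat.find_min h (by omega))

theorem yy_rpow (j : ℕ) (c : ℝ) : yy j ^ c = Real.exp (-(c * Real.log 2 * 2 ^ j)) := by
  rw [Real.rpow_def_of_pos (yy_pos j)]
  congr 1
  unfold yy
  rw [Real.log_inv]
  push_cast
  rw [Real.log_pow]
  push_cast
  ring

theorem volume_Q_ne_zero (m : ℕ) : volume (Q m) ≠ 0 := by
  have h : Q m = Set.pi univ fun _ => Ico (0 : ℝ) 1 := by
    ext e
    simp [Q]
  rw [h, volume_pi_pi]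
  simp

theorem volume_Q_ne_top (m : ℕ) : volume (Q m) ≠ ∞ := by
  refine ((measure_mono (fun e he => ?_)).trans_lt
    (measure_closedBall_lt_top (x := (0 : V m)) (r := 1))).ne
  simpa using norm_le_one_of_mem_Q he

theorem exists_uniform {m : ℕ} {C : Set (V m × ℝ)} {D : Set (V m)} (hD : volume D ≠ 0)
    (a : V m → V m) (ha : ∀ e ∈ D, 0 < volume {t : ℝ | (a e + t • e, t) ∈ C}) :
    ∃ k : ℕ, 0 < k ∧ volume {e ∈ D | ‖a e‖ ≤ k ∧
      (k : ℝ≥0∞)⁻¹ ≤ volume ({t : ℝ | (a e + t • e, t) ∈ C} ∩ Icc (-(k : ℝ)) k)} ≠ 0 := by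
  by_contra hcon
  push Not at hcon
  apply hD
  refine measure_mono_null (t := ⋃ k : ℕ, {e ∈ D | ‖a e‖ ≤ (k + 1 : ℕ) ∧
      ((k + 1 : ℕ) : ℝ≥0∞)⁻¹ ≤ volume ({t : ℝ | (a e + t • e, t) ∈ C} ∩
        Icc (-((k + 1 : ℕ) : ℝ)) (k + 1 : ℕ))}) ?_
    (measure_iUnion_null fun k => hcon _ k.succ_pos)
  intro e he
  obtain ⟨k₁, hk₁⟩ : ∃ k₁ : ℕ, volume ({t : ℝ | (a e + t • e, t) ∈ C} ∩
      Icc (-(k₁ : ℝ)) k₁) ≠ 0 := by
    by_contra h
    push Not at h
    refine (ha e he).ne' (measure_mono_null ?_ (measure_iUnion_null h))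
    intro t ht
    obtain ⟨n, hn⟩ := exists_nat_ge |t|
    exact mem_iUnion.2 ⟨n, ht, abs_le.1 hn⟩
  obtain ⟨k₂, hk₂⟩ := ENNReal.exists_inv_nat_lt hk₁
  obtain ⟨k₃, hk₃⟩ := exists_nat_ge ‖a e‖
  refine mem_iUnion.2 ⟨k₁ + k₂ + k₃, he, ?_, ?_⟩
  · refine hk₃.trans ?_
    exact_mod_cast (by omega : k₃ ≤ k₁ + k₂ + k₃ + 1)
  · refine le_trans ?_ (hk₂.le.trans (measure_mono (inter_subset_inter_right _ ?_)))
    · refine ENNReal.inv_le_inv.2 ?_
      exact_mod_cast (by omega : k₂ ≤ k₁ + k₂ + k₃ + 1)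
    · have : (k₁ : ℝ) ≤ (k₁ + k₂ + k₃ + 1 : ℕ) := by
        exact_mod_cast (by omega : k₁ ≤ k₁ + k₂ + k₃ + 1)
      exact Icc_subset_Icc (by linarith) this

theorem exists_cover {X : Type} [MetricSpace X] [MeasurableSpace X] [BorelSpace X] [Nonempty X]
    {C : Set X} {s : ℝ} (hs : 0 ≤ s) (hC : μH[s] C = 0) {r : ℝ} (hr : 0 < r) :
    ∃ (c : ℕ → X) (d : ℕ → ℝ), (∀ i, 0 ≤ d i ∧ d i ≤ r) ∧ C ⊆ ⋃ i, closedBall (c i) (d i) ∧
      ∑' i, (if 0 < d i then ENNReal.ofReal (d i ^ s) else 0) ≤ 1 := by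
  classical
  rw [Measure.hausdorffMeasure_apply] at hC
  have h1 := (le_iSup₂_of_le (ENNReal.ofReal r) (ENNReal.ofReal_pos.2 hr) le_rfl).trans hC.le
  have h2 := h1.trans_lt zero_lt_one
  simp only [iInf_lt_iff] at h2
  obtain ⟨t, htC, htr, hsum⟩ := h2
  have hfin : ∀ i, ediam (t i) ≠ ∞ := fun i => ((htr i).trans_lt ENNReal.ofReal_lt_top).ne
  have hc : ∀ i, ∃ c : X, t i ⊆ closedBall c (diam (t i)) := by
    intro i
    rcases (t i).eq_empty_or_nonempty with h | ⟨c, hc⟩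
    · exact ⟨Classical.arbitrary X, by simp [h]⟩
    · exact ⟨c, fun x hx => dist_le_diam_of_mem' (hfin i) hx hc⟩
  choose c hc using hc
  refine ⟨c, fun i => diam (t i), fun i => ⟨diam_nonneg, ?_⟩, htC.trans (iUnion_mono hc), ?_⟩
  · exact ENNReal.toReal_le_of_le_ofReal hr.le (htr i)
  · refine le_trans (ENNReal.tsum_le_tsum fun i => ?_) hsum.le
    split_ifs with h
    · have hne : (t i).Nonempty := by
        by_contra h'
        rw [not_nonempty_iff_eq_empty] at h'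
        simp [h'] at h
      rw [iSup_pos hne, ← ENNReal.ofReal_rpow_of_nonneg diam_nonneg hs, diam,
        ENNReal.ofReal_toReal (hfin i)]
    · exact zero_le

theorem exists_gadget {m : ℕ} {C : Set (V m × ℝ)} {s : ℝ} (hs0 : 0 ≤ s) (hs : s < m + 1)
    (hC : μH[s] C = 0) {D : Set (V m)} (hDQ : D ⊆ Q m) (hD : volume D ≠ 0)
    (hthick : ∀ e ∈ D, ∃ a : V m, 0 < volume {t : ℝ | (a + t • e, t) ∈ C}) :
    ∃ k β : ℝ, 0 ≤ k ∧ 0 < β ∧ ∀ L : ℝ, 0 ≤ L → ∃ D₁ : ℝ, 0 ≤ D₁ ∧ ∀ j₀ : ℕ, ∃ j, j₀ ≤ j ∧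
      Gadget m (2 ^ 2 ^ (j + 1)) k L (ENNReal.ofReal (β / ((j : ℝ) + 1) ^ 4))
        (ENNReal.ofReal (D₁ * Real.exp (-((m + 1 - s) * Real.log 2 * 2 ^ j)))) := by
  classical
  have := isAddHaar_prod m
  choose! a ha using hthick
  obtain ⟨k, hk0, hE⟩ := exists_uniform hD a ha
  set E := {e ∈ D | ‖a e‖ ≤ k ∧
      (k : ℝ≥0∞)⁻¹ ≤ volume ({t : ℝ | (a e + t • e, t) ∈ C} ∩ Icc (-(k : ℝ)) k)} with hEdef
  have hEQ : E ⊆ Q m := fun e he => hDQ he.1
  have hEt : volume E ≠ ∞ := ne_top_of_le_ne_top (volume_Q_ne_top m) (measure_mono hEQ)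
  obtain ⟨z, hz, hw⟩ := exists_weight
  have hk' : (0 : ℝ) < k := by exact_mod_cast hk0
  have hb : 0 < (volume E).toReal := ENNReal.toReal_pos hE hEt
  set c₀ := (volume (ball (0 : V m × ℝ) 1)).toReal with hc₀
  refine ⟨k, z ^ 2 * (volume E).toReal / (2 ^ m * k), hk'.le, by positivity, fun L hL =>
    ⟨(1 + L + k) ^ (m + 1) * c₀, by positivity, fun j₀ => ?_⟩⟩
  obtain ⟨c, d, hd, hcov, hsum⟩ := exists_cover hs0 hC (yy_pos j₀)
  set T : ℕ → V m → Set ℝ := fun j e => Icc (-(k : ℝ)) k ∩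
    ⋃ i, ⋃ (_ : yy (j + 1) < d i ∧ d i ≤ yy j), {t : ℝ | (a e + t • e, t) ∈ closedBall (c i) (d i)}
    with hT
  have hTm : ∀ j e, MeasurableSet (T j e) := by
    intro j e
    refine measurableSet_Icc.inter (MeasurableSet.iUnion fun i => MeasurableSet.iUnion fun _ => ?_)
    have : Continuous fun t : ℝ => (a e + t • e, t) := by fun_prop
    exact this.measurable measurableSet_closedBall
  have hT0 : ∀ j, j < j₀ → ∀ e, T j e = ∅ := by
    intro j hj e
    simp only [hT]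
    refine eq_empty_of_forall_notMem fun t ht => ?_
    simp only [mem_inter_iff, mem_iUnion] at ht
    obtain ⟨-, i, hi, -⟩ := ht
    exact absurd ((hd i).2.trans (yy_anti hj)) (not_le.2 hi.1)
  have hk0' : (k : ℝ≥0∞)⁻¹ ≠ 0 := by simp
  have hkt : (k : ℝ≥0∞)⁻¹ ≠ ∞ := by simp [hk0.ne']
  have h1 : ∀ e ∈ E, ∃ j : ℕ, ENNReal.ofReal (z / ((j : ℝ) + 1) ^ 2) * (k : ℝ≥0∞)⁻¹ ≤
      volume (T j e) := by
    intro e he
    refine hw _ _ hk0' hkt (he.2.2.trans ?_)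
    have hsub : {t : ℝ | (a e + t • e, t) ∈ C} ∩ Icc (-(k : ℝ)) k ⊆
        (⋃ j, T j e) ∪ ⋃ i, {(c i).2} := by
      rintro t ⟨ht, htk⟩
      obtain ⟨i, hi⟩ := mem_iUnion.1 (hcov ht)
      rcases (hd i).1.eq_or_lt with h0 | h0
      · right
        rw [← h0, closedBall_zero, mem_singleton_iff] at hi
        exact mem_iUnion.2 ⟨i, by rw [← hi]; rfl⟩
      · left
        obtain ⟨j, hj⟩ := exists_block h0 ((hd i).2.trans (yy_anti (Nat.zero_le _)))
        exact mem_iUnion.2 ⟨j, htk, mem_iUnion.2 ⟨i, mem_iUnion.2 ⟨hj, hi⟩⟩⟩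
    refine (measure_mono hsub).trans ((measure_union_le _ _).trans ?_)
    rw [measure_iUnion_null fun i => measure_singleton _, add_zero]
    exact measure_iUnion_le _
  set G : ∀ j : ℕ, Finset (Fin m → Fin (2 ^ 2 ^ (j + 1))) := fun j => Finset.univ.filter fun ν =>
    ∃ e ∈ E, ‖e - gr _ ν‖ ≤ yy (j + 1) ∧
      ENNReal.ofReal (z / ((j : ℝ) + 1) ^ 2) * (k : ℝ≥0∞)⁻¹ ≤ volume (T j e) with hG
  have h2 : volume E ≤ ∑' j, ((G j).card : ℝ≥0∞) * ENNReal.ofReal ((2 * yy (j + 1)) ^ m) := by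
    have hsub : E ⊆ ⋃ j, ⋃ ν ∈ G j, closedBall (gr _ ν) (yy (j + 1)) := by
      intro e he
      obtain ⟨j, hj⟩ := h1 e he
      obtain ⟨ν, ε, hε, hdec⟩ := exists_digit (N := 2 ^ 2 ^ (j + 1)) (by positivity) (hEQ he)
      have h3 : ‖e - gr _ ν‖ ≤ yy (j + 1) := by
        conv_lhs => rw [hdec]
        rw [add_sub_cancel_left, norm_smul, Real.norm_eq_abs, abs_of_pos (by positivity)]
        exact mul_le_of_le_one_right (by positivity) (norm_le_one_of_mem_Q hε)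
      simp only [mem_iUnion]
      refine ⟨j, ν, ?_, by rwa [mem_closedBall, dist_eq_norm]⟩
      simp only [hG, Finset.mem_filter, Finset.mem_univ, true_and]
      exact ⟨e, he, h3, hj⟩
    refine (measure_mono hsub).trans ((measure_iUnion_le _).trans
      (ENNReal.tsum_le_tsum fun j => (measure_biUnion_finset_le _ _).trans (le_of_eq ?_)))
    simp [Real.volume_pi_closedBall _ (yy_pos (j + 1)).le]
  obtain ⟨j, hj⟩ := hw _ _ hE hEt h2
  have hwj : ENNReal.ofReal (z / ((j : ℝ) + 1) ^ 2) ≠ 0 := by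
    simp only [ne_eq, ENNReal.ofReal_eq_zero, not_le]
    positivity
  have hj₀ : j₀ ≤ j := by
    by_contra hlt
    push Not at hlt
    have hGe : G j = ∅ := by
      refine Finset.eq_empty_of_forall_notMem fun ν hν => ?_
      simp only [hG, Finset.mem_filter, Finset.mem_univ, true_and] at hν
      obtain ⟨e, -, -, he⟩ := hν
      rw [hT0 j hlt, measure_empty, nonpos_iff_eq_zero] at he
      exact mul_ne_zero hwj hk0' he
    rw [hGe] at hj
    simp only [Finset.card_empty, Nat.cast_zero, zero_mul, nonpos_iff_eq_zero] at hj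
    exact mul_ne_zero hwj hE hj
  refine ⟨j, hj₀, ?_⟩
  have h3 : ∀ ν ∈ G j, ∃ e ∈ E, ‖e - gr _ ν‖ ≤ yy (j + 1) ∧
      ENNReal.ofReal (z / ((j : ℝ) + 1) ^ 2) * (k : ℝ≥0∞)⁻¹ ≤ volume (T j e) := by
    intro ν hν
    simpa only [hG, Finset.mem_filter, Finset.mem_univ, true_and] using hν
  choose! ε hεE hε1 hε2 using h3
  refine ⟨⋃ i, ⋃ (_ : yy (j + 1) < d i ∧ d i ≤ yy j), closedBall (c i) ((1 + L + k) * d i),
    fun ν => if ν ∈ G j then a (ε ν) else 0, fun ν => if ν ∈ G j then T j (ε ν) else ∅,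
    MeasurableSet.iUnion fun i => MeasurableSet.iUnion fun _ => measurableSet_closedBall,
    ?_, fun ν => ?_, ?_⟩
  · refine (measure_iUnion_le _).trans ?_
    refine le_trans (ENNReal.tsum_le_tsum (g := fun i => ENNReal.ofReal
      ((1 + L + k) ^ (m + 1) * c₀ * Real.exp (-((m + 1 - s) * Real.log 2 * 2 ^ j))) *
        (if 0 < d i then ENNReal.ofReal (d i ^ s) else 0)) fun i => ?_) ?_
    · by_cases hi : yy (j + 1) < d i ∧ d i ≤ yy j
      · have hdi : 0 < d i := (yy_pos _).trans hi.1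
        simp only [hi, and_self, iUnion_true]
        rw [if_pos hdi,
          Measure.addHaar_closedBall _ _ (by positivity),
          ← ENNReal.ofReal_toReal (measure_ball_lt_top (x := (0 : V m × ℝ)) (r := 1)).ne, ← hc₀,
          ← ENNReal.ofReal_mul (by positivity), ← ENNReal.ofReal_mul (by positivity)]
        refine ENNReal.ofReal_le_ofReal ?_
        have hfr : Module.finrank ℝ (V m × ℝ) = m + 1 := by simp
        rw [hfr, ← yy_rpow, mul_pow]
        have h4 : d i ^ (m + 1) = d i ^ ((m : ℝ) + 1 - s) * d i ^ s := by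
          rw [← Real.rpow_add hdi, sub_add_cancel, ← Real.rpow_natCast]
          push_cast
          rfl
        have h5 : d i ^ ((m : ℝ) + 1 - s) ≤ yy j ^ ((m : ℝ) + 1 - s) :=
          Real.rpow_le_rpow hdi.le hi.2 (by linarith)
        rw [h4]
        have h6 : 0 ≤ c₀ := ENNReal.toReal_nonneg
        calc (1 + L + k) ^ (m + 1) * (d i ^ ((m : ℝ) + 1 - s) * d i ^ s) * c₀
            ≤ (1 + L + k) ^ (m + 1) * (yy j ^ ((m : ℝ) + 1 - s) * d i ^ s) * c₀ := by gcongr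
          _ = _ := by ring
      · simp [hi]
    · rw [ENNReal.tsum_mul_left]
      exact mul_le_of_le_one_right' hsum
  · by_cases hν : ν ∈ G j
    · simp only [if_pos hν]
      refine ⟨(hεE ν hν).2.1, hTm _ _, inter_subset_left, fun t ht x hx => ?_⟩
      simp only [hT, mem_inter_iff, mem_iUnion, mem_ofPred_eq] at ht
      obtain ⟨htk, i, hi, hti⟩ := ht
      simp only [mem_iUnion]
      refine ⟨i, hi, ?_⟩
      have h4 : dist (x, t) (a (ε ν) + t • ε ν, t) ≤ (L + k) * yy (j + 1) := by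
        rw [Prod.dist_eq, dist_self, max_eq_left dist_nonneg, dist_eq_norm]
        have h5 : x - (a (ε ν) + t • ε ν) =
            (x - (a (ε ν) + t • gr _ ν)) - t • (ε ν - gr _ ν) := by module
        have h6 : ‖t • (ε ν - gr _ ν)‖ ≤ k * yy (j + 1) := by
          rw [norm_smul, Real.norm_eq_abs]
          exact mul_le_mul (abs_le.2 htk) (hε1 ν hν) (norm_nonneg _) hk'.le
        simp only
        rw [h5]
        refine (norm_sub_le _ _).trans ?_
        rw [div_eq_mul_inv] at hx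
        have : ((2 ^ 2 ^ (j + 1) : ℕ) : ℝ)⁻¹ = yy (j + 1) := rfl
        rw [this] at hx
        linarith
      have h5 : (L + k) * yy (j + 1) ≤ (L + k) * d i := by gcongr; exact hi.1.le
      rw [mem_closedBall] at hti ⊢
      linarith [dist_triangle (x, t) (a (ε ν) + t • ε ν, t) (c i)]
    · simp [hν]
  · have h4 : ∑ ν, volume (if ν ∈ G j then T j (ε ν) else ∅) = ∑ ν ∈ G j, volume (T j (ε ν)) := by
      rw [← Finset.sum_subset (Finset.subset_univ (G j))]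
      · exact Finset.sum_congr rfl fun ν hν => by rw [if_pos hν]
      · intro ν _ hν
        rw [if_neg hν, measure_empty]
    rw [h4]
    refine le_trans ?_ (Finset.card_nsmul_le_sum _ _ _ hε2)
    rw [nsmul_eq_mul]
    set N : ℕ := 2 ^ 2 ^ (j + 1) with hN
    have hN0 : (0 : ℝ) < N := by positivity
    have hyy : yy (j + 1) = (N : ℝ)⁻¹ := rfl
    set w := z / ((j : ℝ) + 1) ^ 2 with hwdef
    have hw0 : 0 < w := by positivity
    rw [hyy, ← ENNReal.ofReal_toReal hEt, ← ENNReal.ofReal_natCast,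
      ← ENNReal.ofReal_mul hw0.le, ← ENNReal.ofReal_mul (by positivity),
      ENNReal.ofReal_le_ofReal_iff (by positivity)] at hj
    rw [← ENNReal.ofReal_natCast, ← ENNReal.ofReal_natCast, ← ENNReal.ofReal_natCast,
      ← ENNReal.ofReal_inv_of_pos hk', ← ENNReal.ofReal_pow hN0.le,
      ← ENNReal.ofReal_mul (by positivity), ← ENNReal.ofReal_mul (by positivity),
      ← ENNReal.ofReal_mul (by positivity)]
    refine ENNReal.ofReal_le_ofReal ?_
    calc z ^ 2 * (volume E).toReal / (2 ^ m * k) / ((j : ℝ) + 1) ^ 4 * (N : ℝ) ^ m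
        = (w * (volume E).toReal) * (w * (k : ℝ)⁻¹ * (N : ℝ) ^ m / 2 ^ m) := by
          rw [hwdef]; field_simp
      _ ≤ ((G j).card * (2 * (N : ℝ)⁻¹) ^ m) * (w * (k : ℝ)⁻¹ * (N : ℝ) ^ m / 2 ^ m) := by gcongr
      _ = _ := by rw [mul_pow, inv_pow]; field_simp

end Pool.Agent.P.MP_4ae480_an
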