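import Pool.Agent.P.MP_4ae480_an.Cover

set_option autoImplicit false

open MeasureTheory Set Metric
open scoped ENNReal

namespace Pool.Agent.P.MP_4ae480_an

theorem finrank_eq (m : ℕ) :
    Module.finrank ℝ (V m × ℝ) = Module.finrank ℝ (EuclideanSpace ℝ (Fin (m + 1))) := by simp

theorem exists_chart {m : ℕ} (w : EuclideanSpace ℝ (Fin (m + 1))) (hw : ‖w‖ = 1) :
    ∃ M : (V m × ℝ) ≃L[ℝ] EuclideanSpace ℝ (Fin (m + 1)),
      M (fun _ => 1 / 2, 1) = (4 : ℝ) • w := by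
  set M₀ : (V m × ℝ) ≃L[ℝ] EuclideanSpace ℝ (Fin (m + 1)) :=
    ContinuousLinearEquiv.ofFinrankEq (finrank_eq m)
  set x₀ := M₀ (fun _ => 1 / 2, 1) with hx₀
  have h0 : x₀ ≠ 0 := by
    rw [hx₀, ne_eq, map_eq_zero_iff _ M₀.injective]
    intro h
    simpa using congrArg Prod.snd h
  have h1 : 0 < ‖x₀‖ := norm_pos_iff.2 h0
  have h2 : (4 / ‖x₀‖ : ℝ) ≠ 0 := by positivity
  have h3 : ‖(4 / ‖x₀‖ : ℝ) • x₀‖ = ‖(4 : ℝ) • w‖ := by
    rw [norm_smul, norm_smul, hw, Real.norm_eq_abs, abs_of_pos (by positivity)]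
    field_simp
    simp
  refine ⟨(M₀.trans (ContinuousLinearEquiv.smulLeft (Units.mk0 _ h2))).trans
    (Submodule.reflection (ℝ ∙ ((4 / ‖x₀‖ : ℝ) • x₀ - (4 : ℝ) • w))ᗮ).toContinuousLinearEquiv, ?_⟩
  exact Submodule.reflection_sub h3

theorem exists_factor {m : ℕ} (M : (V m × ℝ) ≃L[ℝ] EuclideanSpace ℝ (Fin (m + 1))) :
    ∃ c : ℝ≥0∞, c ≠ ∞ ∧ ∀ Z : Set (V m × ℝ), volume (M '' Z) = c * volume Z := by
  have := isAddHaar_prod m
  have h1 := Measure.isAddLeftInvariant_eq_smul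
    ((volume : Measure (EuclideanSpace ℝ (Fin (m + 1)))).map M.symm) (volume : Measure (V m × ℝ))
  refine ⟨_, ENNReal.coe_ne_top (r := Measure.addHaarScalarFactor
    ((volume : Measure (EuclideanSpace ℝ (Fin (m + 1)))).map M.symm)
    (volume : Measure (V m × ℝ))), fun Z => ?_⟩
  have h2 := M.symm.toHomeomorph.toMeasurableEquiv.map_apply
    (μ := (volume : Measure (EuclideanSpace ℝ (Fin (m + 1))))) Z
  have h3 : M '' Z = M.symm ⁻¹' Z := M.image_eq_preimage_symm Z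
  rw [h3]
  refine Eq.trans h2.symm ?_
  change ((volume : Measure (EuclideanSpace ℝ (Fin (m + 1)))).map M.symm) Z = _
  conv_lhs => rw [h1]
  rfl

theorem transfer {m : ℕ} {B : Set (V m × ℝ)} (hB : IsCompact B)
    (hseg : ∀ e ∈ Q m, ∃ a : V m, ∀ t ∈ Icc (1 / 4 : ℝ) (3 / 4), (a + t • e, t) ∈ B) :
    ∃ B' : Set (EuclideanSpace ℝ (Fin (m + 1))), IsCompact B' ∧
      (∀ v, ‖v‖ = 1 → ∃ p, ∀ τ ∈ Icc (0 : ℝ) 1, p + τ • v ∈ B') ∧
      ∃ Λ : ℝ, 1 ≤ Λ ∧ ∃ c : ℝ≥0∞, c ≠ ∞ ∧ ∀ δ : ℝ, 0 < δ →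
        volume (thickening (δ / Λ) B') ≤ c * volume (thickening δ B) := by
  classical
  choose M hM using fun w : sphere (0 : EuclideanSpace ℝ (Fin (m + 1))) 1 =>
    exists_chart w.1 (by simp)
  choose c hc hcv using fun w => exists_factor (M w)
  set O : Set (V m × ℝ) := {z | (0 < z.2 ∧ z.2 < 1 / 2) ∧ ∀ i, 0 < z.1 i ∧ z.1 i < z.2} with hO
  have hOo : IsOpen O := by
    refine ((isOpen_lt continuous_const continuous_snd).inter
      (isOpen_lt continuous_snd continuous_const)).inter ?_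
    change IsOpen {z : V m × ℝ | ∀ i, 0 < z.1 i ∧ z.1 i < z.2}
    rw [ofPred_forall]
    refine isOpen_iInter_of_finite fun i => ?_
    have hi : Continuous fun z : V m × ℝ => z.1 i := by fun_prop
    exact (isOpen_lt continuous_const hi).inter (isOpen_lt hi continuous_snd)
  obtain ⟨t, ht⟩ := (isCompact_sphere (0 : EuclideanSpace ℝ (Fin (m + 1))) 1).elim_finite_subcover
    (fun w => (M w).symm ⁻¹' O) (fun w => hOo.preimage (M w).symm.continuous) (by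
      intro w hw
      refine mem_iUnion.2 ⟨⟨w, hw⟩, ?_⟩
      have h1 : (M ⟨w, hw⟩).symm w = (1 / 4 : ℝ) • (fun _ => 1 / 2, 1) := by
        rw [ContinuousLinearEquiv.symm_apply_eq, map_smul, hM, smul_smul]
        simp
      rw [mem_preimage, h1]
      simp only [hO, mem_ofPred_eq, Prod.smul_snd, Prod.smul_fst, Pi.smul_apply, smul_eq_mul]
      norm_num)
  refine ⟨⋃ w ∈ t, M w '' B, t.isCompact_biUnion fun w _ => hB.image (M w).continuous, ?_,
    1 + ∑ w ∈ t, ‖((M w).symm : EuclideanSpace ℝ (Fin (m + 1)) →L[ℝ] V m × ℝ)‖,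
    le_add_of_nonneg_right (Finset.sum_nonneg fun w _ => norm_nonneg _), ∑ w ∈ t, c w,
    ENNReal.sum_ne_top.2 fun w _ => hc w, fun δ hδ => ?_⟩
  · intro v hv
    have h1 := ht (by simpa using hv : v ∈ sphere (0 : EuclideanSpace ℝ (Fin (m + 1))) 1)
    simp only [mem_iUnion, mem_preimage] at h1
    obtain ⟨w, hw, ⟨hs0, hs1⟩, hy⟩ := h1
    set z := (M w).symm v with hz
    obtain ⟨a, ha⟩ := hseg (z.2⁻¹ • z.1) (fun i => by
      simp only [Pi.smul_apply, smul_eq_mul]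
      refine ⟨(mul_pos (inv_pos.2 hs0) (hy i).1).le, ?_⟩
      rw [inv_mul_lt_one₀ hs0]
      exact (hy i).2)
    refine ⟨M w (a + (1 / 4 : ℝ) • z.2⁻¹ • z.1, 1 / 4), fun τ hτ => ?_⟩
    simp only [mem_iUnion]
    refine ⟨w, hw, _, ha (1 / 4 + τ * z.2) ⟨by nlinarith [hτ.1], by nlinarith [hτ.2]⟩, ?_⟩
    have h2 : v = M w z := by simp [hz]
    conv_rhs => rw [h2, ← map_smul, ← map_add]
    congr 1
    refine Prod.ext ?_ (by simp)
    simp only [Prod.fst_add, Prod.smul_fst]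
    have := hs0.ne'
    match_scalars <;> field_simp
  · set Λ := 1 + ∑ w ∈ t, ‖((M w).symm : EuclideanSpace ℝ (Fin (m + 1)) →L[ℝ] V m × ℝ)‖ with hΛ
    have hΛ0 : 0 < Λ := add_pos_of_pos_of_nonneg one_pos
      (Finset.sum_nonneg fun w _ => norm_nonneg _)
    have hsub : thickening (δ / Λ) (⋃ w ∈ t, M w '' B) ⊆ ⋃ w ∈ t, M w '' thickening δ B := by
      intro x hx
      obtain ⟨y, hy, hxy⟩ := mem_thickening_iff.1 hx
      simp only [mem_iUnion] at hy ⊢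
      obtain ⟨w, hw, y', hy', rfl⟩ := hy
      refine ⟨w, hw, (M w).symm x, mem_thickening_iff.2 ⟨y', hy', ?_⟩, by simp⟩
      have h1 : (M w).symm x - y' = ((M w).symm : EuclideanSpace ℝ (Fin (m + 1)) →L[ℝ] V m × ℝ)
          (x - M w y') := by simp
      have h2 : ‖((M w).symm : EuclideanSpace ℝ (Fin (m + 1)) →L[ℝ] V m × ℝ)‖ ≤ Λ :=
        (Finset.single_le_sum (f := fun w =>
          ‖((M w).symm : EuclideanSpace ℝ (Fin (m + 1)) →L[ℝ] V m × ℝ)‖)
          (fun w _ => norm_nonneg _) hw).trans (by rw [hΛ]; linarith)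
      rw [dist_eq_norm] at hxy ⊢
      rw [h1]
      refine (ContinuousLinearMap.le_opNorm _ _).trans_lt ?_
      rw [lt_div_iff₀' hΛ0] at hxy
      exact lt_of_le_of_lt (mul_le_mul_of_nonneg_right h2 (norm_nonneg _)) hxy
    refine (measure_mono hsub).trans ((measure_biUnion_finset_le _ _).trans (le_of_eq ?_))
    rw [Finset.sum_mul]
    exact Finset.sum_congr rfl fun w _ => hcv w _

end Pool.Agent.P.MP_4ae480_an
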