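import Pool.Agent.P.MP_4ae480_an.Merge
import Pool.Agent.P.MP_4ae480_an.Transfer

set_option autoImplicit false

open MeasureTheory Set Metric Filter Topology
open scoped ENNReal NNReal

namespace Pool.Agent.P.MP_4ae480_an

theorem one_sub_pow_le {x y : ℝ} (hx : 0 ≤ x) (hy : 0 < y) (K : ℕ) :
    (1 - ENNReal.ofReal x / ENNReal.ofReal y) ^ K ≤ ENNReal.ofReal (Real.exp (-(x / y * K))) := by
  have h1 : 1 - ENNReal.ofReal x / ENNReal.ofReal y ≤ ENNReal.ofReal (Real.exp (-(x / y))) := by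
    rw [← ENNReal.ofReal_div_of_pos hy, ← ENNReal.ofReal_one, ← ENNReal.ofReal_sub _ (by positivity)]
    exact ENNReal.ofReal_le_ofReal (by linarith [Real.add_one_le_exp (-(x / y))])
  refine (pow_le_pow_left' h1 K).trans (le_of_eq ?_)
  rw [← ENNReal.ofReal_pow (Real.exp_pos _).le, ← Real.exp_nat_mul]
  congr 2
  ring

theorem main_coord {m : ℕ} {C : Set (V m × ℝ)} {s : ℝ} (hs0 : 0 ≤ s) (hs : s < m + 1)
    (hC : μH[s] C = 0) {D : Set (V m)} (hDQ : D ⊆ Q m) (hD : volume D ≠ 0)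
    (hthick : ∀ e ∈ D, ∃ a : V m, 0 < volume {t : ℝ | (a + t • e, t) ∈ C}) :
    ∃ B : Set (V m × ℝ), IsCompact B ∧
      (∀ e ∈ Q m, ∃ a : V m, ∀ t ∈ Icc (1 / 4 : ℝ) (3 / 4), (a + t • e, t) ∈ B) ∧
      ∃ D₂ c : ℝ, 0 ≤ D₂ ∧ 0 < c ∧ ∀ T : ℕ, ∃ j : ℕ, T ≤ j ∧ ∃ δ : ℝ, 0 < δ ∧
        δ ≤ 1 / ((j : ℝ) + 1) ∧ Real.log (1 / δ) ≤ 4 * ((j : ℝ) + 1) ^ 4 * 4 ^ j ∧
        volume (thickening δ B) ≤
          ENNReal.ofReal (D₂ * (((j : ℝ) + 1) ^ 4 * 2 ^ j) * Real.exp (-(c * 2 ^ j))) := by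
  obtain ⟨k, β, hk, hβ, hg⟩ := exists_gadget hs0 hs hC hDQ hD hthick
  set R := 2 * (2 * k + 1) with hR
  have hR0 : 0 ≤ R := by positivity
  obtain ⟨D₁, hD₁, hg⟩ := hg (2 * R + 5 + R + 1) (by positivity)
  set c := min ((m + 1 - s) * Real.log 2) (β / (2 * k + 1)) with hc
  have hc0 : 0 < c := lt_min (mul_pos (by linarith) (Real.log_pos one_lt_two)) (by positivity)
  set D₂ := D₁ + (2 * (2 * R + 5 + 1)) ^ m with hD₂
  have hMj : ∀ j : ℕ, j + 1 ≤ (2 ^ 2 ^ (j + 1)) ^ ((j + 1) ^ 4 * 2 ^ j) := by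
    intro j
    refine le_trans ?_ (Nat.le_self_pow (by positivity) _)
    exact (Nat.lt_two_pow_self.le).trans (Nat.pow_le_pow_right two_pos Nat.lt_two_pow_self.le)
  obtain ⟨B, hB, hseg, hvol⟩ := merge (m := m) hR0 (fun T M v => ∃ j : ℕ, T ≤ j ∧
    M = (2 ^ 2 ^ (j + 1)) ^ ((j + 1) ^ 4 * 2 ^ j) ∧
    v = ENNReal.ofReal (D₂ * (((j : ℝ) + 1) ^ 4 * 2 ^ j) * Real.exp (-(c * 2 ^ j)))) (by
      intro T
      obtain ⟨j, hj, hG⟩ := hg T
      refine ⟨_, le_trans (by omega) (hMj j), _, ⟨j, hj, rfl, rfl⟩, ?_⟩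
      have hN : 2 ≤ 2 ^ 2 ^ (j + 1) := Nat.le_self_pow (by positivity) _
      have h1 := good_iter hN hk le_rfl (by positivity) hG ((j + 1) ^ 4 * 2 ^ j) (Icc 0 1)
        measurableSet_Icc subset_rfl
      rw [Nat.cast_pow]
      refine h1.mono ?_
      have h2 := one_sub_pow_le (x := β / ((j : ℝ) + 1) ^ 4) (y := 2 * k + 1) (by positivity)
        (by positivity) ((j + 1) ^ 4 * 2 ^ j)
      rw [Real.volume_Icc, sub_zero, ENNReal.ofReal_one, mul_one]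
      refine (add_le_add le_rfl (mul_le_mul' le_rfl h2)).trans ?_
      rw [← ENNReal.ofReal_natCast, ← ENNReal.ofReal_mul (by positivity),
        ← ENNReal.ofReal_mul (by positivity), ← ENNReal.ofReal_add (by positivity) (by positivity)]
      refine ENNReal.ofReal_le_ofReal ?_
      push_cast
      have h3 : Real.exp (-((m + 1 - s) * Real.log 2 * 2 ^ j)) ≤ Real.exp (-(c * 2 ^ j)) := by
        gcongr
        exact min_le_left _ _
      have h4 : Real.exp (-(β / ((j : ℝ) + 1) ^ 4 / (2 * k + 1) * (((j : ℝ) + 1) ^ 4 * 2 ^ j))) ≤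
          Real.exp (-(c * 2 ^ j)) := by
        have : β / ((j : ℝ) + 1) ^ 4 / (2 * k + 1) * (((j : ℝ) + 1) ^ 4 * 2 ^ j) =
            β / (2 * k + 1) * 2 ^ j := by field_simp
        rw [this]
        gcongr
        exact min_le_right _ _
      have h5 : (1 : ℝ) ≤ ((j : ℝ) + 1) ^ 4 * 2 ^ j :=
        one_le_mul_of_one_le_of_one_le (one_le_pow₀ (by simp)) (one_le_pow₀ one_le_two)
      set K := ((j : ℝ) + 1) ^ 4 * 2 ^ j
      set X := Real.exp (-(c * 2 ^ j))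
      have hX : 0 ≤ X := (Real.exp_pos _).le
      have h6 : (0 : ℝ) ≤ (2 * (2 * R + 5 + 1)) ^ m := by positivity
      calc _ ≤ K * (D₁ * X) + (2 * (2 * R + 5 + 1)) ^ m * (K * X) := by
            refine add_le_add (by gcongr) (mul_le_mul_of_nonneg_left (h4.trans ?_) h6)
            exact le_mul_of_one_le_left hX h5
        _ = _ := by rw [hD₂]; ring)
  refine ⟨B, hB, hseg, D₂, c, by positivity, hc0, fun T => ?_⟩
  obtain ⟨T', M, hT, -, hM0, v, ⟨j, hj, hM, rfl⟩, δ, hδ1, hδ2, hδ3⟩ := hvol T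
  have hM0' : (0 : ℝ) < M := by exact_mod_cast hM0
  have hδ0 : 0 < δ := lt_of_lt_of_le (by positivity) hδ1
  refine ⟨j, hT.trans hj, δ, hδ0, hδ2.trans ?_, ?_, hδ3⟩
  · refine one_div_le_one_div_of_le (by positivity) ?_
    rw [hM]
    exact_mod_cast hMj j
  · have h1 : 1 / δ ≤ (M : ℝ) ^ 2 := by
      rw [div_le_iff₀ hδ0, ← div_le_iff₀' (by positivity)]
      exact hδ1
    refine (Real.log_le_log (by positivity) h1).trans ?_
    rw [hM]
    push_cast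
    simp only [Real.log_pow]
    push_cast
    have h2 : Real.log 2 ≤ 1 := by linarith [Real.log_two_lt_d9]
    have h3 : (4 : ℝ) ^ j = 2 ^ j * 2 ^ j := by rw [← mul_pow]; norm_num
    calc 2 * (((j : ℝ) + 1) ^ 4 * 2 ^ j * (2 ^ (j + 1) * Real.log 2))
        ≤ 2 * (((j : ℝ) + 1) ^ 4 * 2 ^ j * (2 ^ (j + 1) * 1)) := by gcongr
      _ = _ := by rw [h3]; ring

theorem asymp {D Λ c γ : ℝ} (hD : 0 ≤ D) (hΛ : 0 ≤ Λ) (hc : 0 < c) (hγ0 : 0 < γ)
    (hγ : γ < 1 / 2) : ∀ᶠ j : ℕ in atTop, ∀ l : ℝ, 0 ≤ l → l ≤ Λ + 4 * ((j : ℝ) + 1) ^ 4 * 4 ^ j →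
      D * (((j : ℝ) + 1) ^ 4 * 2 ^ j) * Real.exp (-(c * 2 ^ j)) ≤ Real.exp (-l ^ γ) := by
  set q := (4 : ℝ) ^ γ with hq
  have hq1 : 1 ≤ q := Real.one_le_rpow (by norm_num) hγ0.le
  have hq2 : q < 2 := by
    have h1 : (4 : ℝ) ^ (1 / 2 : ℝ) = 2 := by
      rw [show (4 : ℝ) = 2 ^ (2 : ℝ) by norm_num, ← Real.rpow_mul (by norm_num)]
      norm_num
    rw [← h1]
    exact Real.rpow_lt_rpow_of_exponent_lt (by norm_num) hγ
  have h1 := tendsto_pow_const_mul_const_pow_of_abs_lt_one 4 (r := q / 2)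
    (by rw [abs_of_pos (by positivity)]; linarith)
  have h2 := (tendsto_add_atTop_iff_nat 1).2 h1
  have h3 := h2.eventually (gt_mem_nhds (show (0 : ℝ) < c / (D + Λ + 9) * (q / 2) by positivity))
  filter_upwards [h3] with j hj l hl0 hl
  push_cast at hj
  set J := ((j : ℝ) + 1) ^ 4 with hJ
  have hJ1 : 1 ≤ J := one_le_pow₀ (by simp)
  have hqj : 1 ≤ q ^ j := one_le_pow₀ hq1
  have h4j : (1 : ℝ) ≤ 4 ^ j := one_le_pow₀ (by norm_num)
  have h4 : (D + Λ + 9) * (J * q ^ j) ≤ c * 2 ^ j := by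
    rw [pow_succ, ← mul_assoc, mul_lt_mul_iff_left₀ (by positivity), div_pow, ← mul_div_assoc,
      div_lt_div_iff₀ (by positivity) (by positivity)] at hj
    linarith
  have h5 : l ^ γ ≤ (Λ + 4) * (J * q ^ j) := by
    have h6 : l ≤ ((Λ + 4) * J) * 4 ^ j := by
      have : Λ ≤ Λ * (J * 4 ^ j) :=
        le_mul_of_one_le_right hΛ (one_le_mul_of_one_le_of_one_le hJ1 h4j)
      linarith
    calc l ^ γ ≤ (((Λ + 4) * J) * 4 ^ j) ^ γ := Real.rpow_le_rpow hl0 h6 hγ0.le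
      _ = ((Λ + 4) * J) ^ γ * q ^ j := by
          rw [Real.mul_rpow (by positivity) (by positivity), hq, ← Real.rpow_natCast,
            ← Real.rpow_mul (by norm_num), mul_comm (j : ℝ), Real.rpow_mul (by norm_num),
            Real.rpow_natCast]
      _ ≤ ((Λ + 4) * J) * q ^ j := by
          gcongr
          exact Real.rpow_le_self_of_one_le (by nlinarith) (by linarith)
      _ = _ := by ring
  have h6 : D * (J * 2 ^ j) ≤ Real.exp ((D + 5) * (J * q ^ j)) := by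
    have h7 : D ≤ Real.exp D := by linarith [Real.add_one_le_exp D]
    have h8 : J ≤ Real.exp (4 * j) := by
      rw [show (4 : ℝ) * j = (4 : ℕ) * (j : ℝ) by norm_num, Real.exp_nat_mul]
      exact pow_le_pow_left₀ (by positivity) (Real.add_one_le_exp _) 4
    have h9 : (2 : ℝ) ^ j ≤ Real.exp j := by
      rw [← Real.exp_one_pow]
      gcongr
      linarith [Real.add_one_le_exp 1]
    have h10 : (j : ℝ) ≤ J := by
      have : (j : ℝ) + 1 ≤ J := le_self_pow₀ (by simp) (by norm_num)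
      linarith
    calc D * (J * 2 ^ j) ≤ Real.exp D * (Real.exp (4 * j) * Real.exp j) := by gcongr
      _ = Real.exp (D + 5 * j) := by rw [← Real.exp_add, ← Real.exp_add]; congr 1; ring
      _ ≤ _ := by
          refine Real.exp_le_exp.2 ?_
          have h11 : J ≤ J * q ^ j := le_mul_of_one_le_right (by positivity) hqj
          nlinarith
  refine (mul_le_mul_of_nonneg_right h6 (Real.exp_pos _).le).trans ?_
  rw [← Real.exp_add]
  exact Real.exp_le_exp.2 (by linarith)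

theorem main_euclid {m : ℕ} {C : Set (EuclideanSpace ℝ (Fin (m + 1)))}
    (hC : dimH C < (m + 1 : ℕ))
    (hthick : ∀ v, ‖v‖ = 1 → ∃ p, 0 < volume {s : ℝ | p + s • v ∈ C}) :
    ∃ B : Set (EuclideanSpace ℝ (Fin (m + 1))), IsCompact B ∧
      (∀ v, ‖v‖ = 1 → ∃ p, ∀ τ ∈ Icc (0 : ℝ) 1, p + τ • v ∈ B) ∧
      ∀ γ : ℝ, 0 < γ → γ < 1 / 2 → ∀ δ₀ : ℝ, 0 < δ₀ → ∃ δ : ℝ, 0 < δ ∧ δ < δ₀ ∧
        volume (thickening δ B) ≤ ENNReal.ofReal (Real.exp (-Real.log (1 / δ) ^ γ)) := by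
  set M₀ : (V m × ℝ) ≃L[ℝ] EuclideanSpace ℝ (Fin (m + 1)) :=
    ContinuousLinearEquiv.ofFinrankEq (finrank_eq m)
  obtain ⟨s, hs1, hs2⟩ := ENNReal.lt_iff_exists_nnreal_btwn.1 hC
  have hs3 : (s : ℝ) < m + 1 := by exact_mod_cast hs2
  have hC' : μH[s] (M₀ ⁻¹' C) = 0 := by
    refine hausdorffMeasure_of_dimH_lt ?_
    rw [← M₀.image_symm_eq_preimage, M₀.symm.dimH_image]
    exact hs1
  obtain ⟨B, hB, hseg, D₂, c, hD₂, hc, hvol⟩ := main_coord s.2 hs3 hC' subset_rfl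
    (volume_Q_ne_zero m) (by
      intro e _
      have h0 : M₀ (e, 1) ≠ 0 := by
        rw [ne_eq, map_eq_zero_iff _ M₀.injective]
        intro h
        simpa using congrArg Prod.snd h
      have h1 : 0 < ‖M₀ (e, 1)‖ := norm_pos_iff.2 h0
      obtain ⟨p, hp⟩ := hthick (‖M₀ (e, 1)‖⁻¹ • M₀ (e, 1)) (norm_smul_inv_norm h0)
      set z := M₀.symm p with hz
      refine ⟨z.1 - z.2 • e, ?_⟩
      have h2 : {t : ℝ | (z.1 - z.2 • e + t • e, t) ∈ M₀ ⁻¹' C} =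
          (fun t => t + -z.2) ⁻¹' ((‖M₀ (e, 1)‖ • ·) ⁻¹'
            {s : ℝ | p + s • ‖M₀ (e, 1)‖⁻¹ • M₀ (e, 1) ∈ C}) := by
        ext t
        simp only [mem_preimage, mem_ofPred_eq, smul_eq_mul]
        have h3 : M₀ (z.1 - z.2 • e + t • e, t) =
            p + (‖M₀ (e, 1)‖ * (t + -z.2)) • ‖M₀ (e, 1)‖⁻¹ • M₀ (e, 1) := by
          rw [smul_smul, mul_right_comm, mul_inv_cancel₀ h1.ne', one_mul, ← map_smul,
            show p = M₀ z by simp [hz], ← map_add]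
          congr 1
          refine Prod.ext ?_ (by simp)
          simp only [Prod.fst_add, Prod.smul_fst]
          module
        rw [h3]
      rw [h2, measure_preimage_add_right, Measure.addHaar_preimage_smul _ h1.ne']
      refine ENNReal.mul_pos ?_ hp.ne'
      simp [h0])
  obtain ⟨B', hB', hseg', Λ, hΛ, c', hc', hvol'⟩ := transfer hB hseg
  refine ⟨B', hB', hseg', fun γ hγ0 hγ δ₀ hδ₀ => ?_⟩
  obtain ⟨T₁, hT₁⟩ := eventually_atTop.1 (asymp (D := c'.toReal * D₂) (Λ := Real.log Λ)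
    (by positivity) (Real.log_nonneg hΛ) hc hγ0 hγ)
  obtain ⟨T₂, hT₂⟩ := exists_nat_one_div_lt hδ₀
  obtain ⟨j, hj, δ, hδ0, hδ1, hδ2, hδ3⟩ := hvol (max T₁ T₂)
  have hΛ0 : 0 < Λ := by linarith
  have hj2 : (T₂ : ℝ) ≤ j := by exact_mod_cast (le_max_right _ _).trans hj
  have hδ4 : δ ≤ 1 := hδ1.trans (by rw [div_le_one (by positivity)]; simp)
  refine ⟨δ / Λ, by positivity, ?_, (hvol' δ hδ0).trans ?_⟩
  · refine (div_le_self hδ0.le hΛ).trans_lt (hδ1.trans_lt (lt_of_le_of_lt ?_ hT₂))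
    gcongr
  · refine (mul_le_mul' le_rfl hδ3).trans ?_
    rw [← ENNReal.ofReal_toReal hc', ← ENNReal.ofReal_mul ENNReal.toReal_nonneg]
    refine ENNReal.ofReal_le_ofReal ?_
    have h1 := hT₁ j ((le_max_left _ _).trans hj) (Real.log (1 / (δ / Λ)))
      (Real.log_nonneg (by rw [one_le_div (by positivity), div_le_one hΛ0]; linarith)) (by
        rw [show 1 / (δ / Λ) = Λ * (1 / δ) by field_simp,
          Real.log_mul hΛ0.ne' (by positivity)]
        linarith)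
    refine le_trans (le_of_eq ?_) h1
    ring

end Pool.Agent.P.MP_4ae480_an
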