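import Pool.Agent.P.MP_4ae480_an.Step

set_option autoImplicit false

open MeasureTheory Set Metric
open scoped ENNReal

namespace Pool.Agent.P.MP_4ae480_an

/-- closed tube over the heights `[1/4, 3/4]` -/
def tube {m : ℕ} (p : V m × V m) (ρ : ℝ) : Set (V m × ℝ) :=
  {z | z.2 ∈ Icc (1 / 4 : ℝ) (3 / 4) ∧ ‖z.1 - (p.1 + z.2 • p.2)‖ ≤ ρ}

theorem isClosed_tube {m : ℕ} (p : V m × V m) (ρ : ℝ) : IsClosed (tube p ρ) := by
  have h : IsClosed {z : V m × ℝ | ‖z.1 - (p.1 + z.2 • p.2)‖ ≤ ρ} :=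
    isClosed_le (by fun_prop) continuous_const
  exact (isClosed_Icc.preimage continuous_snd).inter h

/-- the scales -/
def scaleP (M : ℕ → ℕ) : ℕ → ℕ
  | 0 => 1
  | j + 1 => scaleP M j * M (scaleP M j + j + 4)

/-- child of a tube -/
noncomputable def child {m N : ℕ} (σ : ℝ) (a : V m → V m) (q : (V m × V m) × (Fin m → Fin N)) :
    V m × V m :=
  (q.1.1 + σ • a (gr N q.2), q.1.2 + σ • gr N q.2)

open Classical in
/-- the families of tubes -/
noncomputable def fam {m : ℕ} (M : ℕ → ℕ) (a : ℕ → V m → V m) : ℕ → Finset (V m × V m)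
  | 0 => {(0, 0)}
  | j + 1 => ((fam M a j) ×ˢ (Finset.univ : Finset (Fin m → Fin (M (scaleP M j + j + 4))))).image
      (child ((scaleP M j : ℝ)⁻¹) (a (scaleP M j + j + 4)))

theorem merge {m : ℕ} {R : ℝ} (hR : 0 ≤ R) (Φ : ℕ → ℕ → ℝ≥0∞ → Prop)
    (h : ∀ T : ℕ, ∃ M : ℕ, T ≤ M ∧ ∃ v, Φ T M v ∧ Good m R ((2 * R + 5) / M) (Icc 0 1) v) :
    ∃ B : Set (V m × ℝ), IsCompact B ∧
      (∀ e ∈ Q m, ∃ a : V m, ∀ t ∈ Icc (1 / 4 : ℝ) (3 / 4), (a + t • e, t) ∈ B) ∧
      ∀ T : ℕ, ∃ T' M : ℕ, T ≤ T' ∧ T' ≤ M ∧ 0 < M ∧ ∃ v, Φ T' M v ∧ ∃ δ : ℝ,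
        1 / (M : ℝ) ^ 2 ≤ δ ∧ δ ≤ 1 / M ∧ volume (thickening δ B) ≤ v := by
  classical
  choose M hM v hΦ a W hW hWv ha using h
  set P := scaleP M with hP
  set T : ℕ → ℕ := fun j => P j + j + 4 with hT
  have hPs : ∀ j, P (j + 1) = P j * M (T j) := fun j => rfl
  have hM4 : ∀ j, 4 ≤ M (T j) := fun j => le_trans (by simp [hT]) (hM _)
  have hP0 : ∀ j, 0 < P j := by
    intro j
    induction j with
    | zero => exact one_pos
    | succ j ih => rw [hPs]; exact Nat.mul_pos ih (by linarith [hM4 j])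
  set σ : ℕ → ℝ := fun j => (P j : ℝ)⁻¹ with hσ
  have hσ0 : ∀ j, 0 < σ j := fun j => inv_pos.2 (by exact_mod_cast hP0 j)
  have hM4' : ∀ j, (4 : ℝ) ≤ M (T j) := fun j => by exact_mod_cast hM4 j
  have hσs : ∀ j, σ (j + 1) = σ j / M (T j) := by
    intro j
    simp only [hσ, hPs, Nat.cast_mul, mul_inv, div_eq_mul_inv]
  have hσs' : ∀ j, σ (j + 1) ≤ σ j / 4 := by
    intro j
    rw [hσs]
    exact div_le_div_of_nonneg_left (hσ0 j).le (by norm_num) (hM4' j)
  have hσ1 : ∀ j, σ j ≤ 1 := by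
    intro j
    exact inv_le_one_of_one_le₀ (by exact_mod_cast hP0 j)
  set F := fam M a with hF
  have hFs : ∀ j p', p' ∈ F (j + 1) ↔ ∃ p ∈ F j, ∃ ν : Fin m → Fin (M (T j)),
      child (σ j) (a (T j)) (p, ν) = p' := by
    intro j p'
    simp only [hF, fam, Finset.mem_image, Finset.mem_product, Finset.mem_univ, and_true]
    constructor
    · rintro ⟨⟨p, ν⟩, hp, rfl⟩
      exact ⟨p, hp, ν, rfl⟩
    · rintro ⟨p, hp, ν, rfl⟩
      exact ⟨(p, ν), hp, rfl⟩
  have hcard : ∀ j, (F j).card ≤ P j ^ m := by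
    intro j
    induction j with
    | zero => simp [hF, fam, hP, scaleP]
    | succ j ih =>
      rw [hPs, mul_pow]
      refine Finset.card_image_le.trans ?_
      rw [Finset.card_product]
      refine Nat.mul_le_mul ih (le_of_eq ?_)
      simp [hT, hP]
  have hd : ∀ j, ∀ p ∈ F j, ‖p.2‖ ≤ 2 - 2 * σ j := by
    intro j
    induction j with
    | zero =>
      intro p hp
      simp only [hF, fam, Finset.mem_singleton] at hp
      simp [hp, hσ, hP, scaleP]
    | succ j ih =>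
      intro p' hp'
      obtain ⟨p, hp, ν, rfl⟩ := (hFs j p').1 hp'
      have h1 : ‖σ j • gr _ ν‖ ≤ σ j := by
        rw [norm_smul, Real.norm_eq_abs, abs_of_pos (hσ0 j)]
        exact mul_le_of_le_one_right (hσ0 j).le (norm_le_one_of_mem_Q (gr_mem_Q ν))
      have h2 := norm_add_le p.2 (σ j • gr _ ν)
      have h3 := ih p hp
      have h4 := hσs' j
      have h5 := hσ0 j
      simp only [child]
      linarith
  have hcov : ∀ j, ∀ e ∈ Q m, ∃ p ∈ F j, ∃ ε ∈ Q m, e = p.2 + σ j • ε := by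
    intro j e he
    induction j with
    | zero => exact ⟨(0, 0), by simp [hF, fam], e, he, by simp [hσ, hP, scaleP]⟩
    | succ j ih =>
      obtain ⟨p, hp, ε, hε, hdec⟩ := ih
      obtain ⟨ν, ε', hε', hdec'⟩ := exists_digit (N := M (T j)) (by linarith [hM4 j]) hε
      refine ⟨_, (hFs j _).2 ⟨p, hp, ν, rfl⟩, ε', hε', ?_⟩
      rw [hdec, hdec', hσs]
      simp only [child]
      module
  set Bj : ℕ → Set (V m × ℝ) := fun j => ⋃ p ∈ F j, tube p ((2 * R + 2) * σ j) with hBj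
  have hBc : ∀ j, IsClosed (Bj j) := fun j =>
    (F j).finite_toSet.isClosed_biUnion fun p _ => isClosed_tube _ _
  have hBn : ∀ j, Bj (j + 1) ⊆ Bj j := by
    intro j z hz
    simp only [hBj, mem_iUnion] at hz ⊢
    obtain ⟨p', hp', hz1, hz2⟩ := hz
    obtain ⟨p, hp, ν, rfl⟩ := (hFs j p').1 hp'
    refine ⟨p, hp, hz1, ?_⟩
    have h1 : z.1 - (p.1 + z.2 • p.2) = (z.1 - ((child (σ j) (a (T j)) (p, ν)).1 +
        z.2 • (child (σ j) (a (T j)) (p, ν)).2)) + σ j • a (T j) (gr _ ν) +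
          σ j • z.2 • gr _ ν := by
      simp only [child]
      module
    have h2 : ‖σ j • a (T j) (gr _ ν)‖ ≤ σ j * R := by
      rw [norm_smul, Real.norm_eq_abs, abs_of_pos (hσ0 j)]
      exact mul_le_mul_of_nonneg_left (ha _ _ (gr_mem_Q ν)).1 (hσ0 j).le
    have h3 : ‖σ j • z.2 • gr _ ν‖ ≤ σ j := by
      rw [norm_smul, Real.norm_eq_abs, abs_of_pos (hσ0 j), norm_smul, Real.norm_eq_abs,
        abs_of_nonneg (by linarith [hz1.1])]
      refine mul_le_of_le_one_right (hσ0 j).le (mul_le_one₀ (by linarith [hz1.2]) (norm_nonneg _)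
        (norm_le_one_of_mem_Q (gr_mem_Q ν)))
    rw [h1]
    refine norm_add₃_le.trans ?_
    have h4 : (2 * R + 2) * σ (j + 1) ≤ (2 * R + 2) * (σ j / 4) :=
      mul_le_mul_of_nonneg_left (hσs' j) (by linarith)
    nlinarith [hσ0 j]
  have hB0 : Bj 0 ⊆ closedBall 0 (2 * R + 2) ×ˢ Icc (1 / 4 : ℝ) (3 / 4) := by
    intro z hz
    simp only [hBj, hF, fam, Finset.mem_singleton, iUnion_iUnion_eq_left] at hz
    refine ⟨?_, hz.1⟩
    simpa [hσ, hP, scaleP] using hz.2
  have hBanti : Antitone Bj := antitone_nat_of_succ_le hBn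
  refine ⟨⋂ j, Bj j, ?_, ?_, ?_⟩
  · refine IsCompact.of_isClosed_subset ((isCompact_closedBall 0 (2 * R + 2)).prod isCompact_Icc)
      (isClosed_iInter hBc) ((iInter_subset _ 0).trans hB0)
  · intro e he
    set G : ℕ → Set (V m) := fun j => {b | ∀ t ∈ Icc (1 / 4 : ℝ) (3 / 4), (b + t • e, t) ∈ Bj j}
      with hG
    have hGc : ∀ j, IsClosed (G j) := by
      intro j
      simp only [hG, ofPred_forall]
      refine isClosed_iInter fun t => isClosed_iInter fun _ => (hBc j).preimage ?_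
      fun_prop
    have hne := IsCompact.nonempty_iInter_of_sequence_nonempty_isCompact_isClosed G
      (fun j b hb t ht => hBn j (hb t ht)) ?_ ?_ hGc
    · obtain ⟨b, hb⟩ := hne
      exact ⟨b, fun t ht => mem_iInter.2 fun j => mem_iInter.1 hb j t ht⟩
    · intro j
      obtain ⟨p, hp, ε, hε, hdec⟩ := hcov j e he
      refine ⟨p.1, fun t ht => ?_⟩
      simp only [hBj, mem_iUnion]
      refine ⟨p, hp, ht, ?_⟩
      have h1 : p.1 + t • e - (p.1 + t • p.2) = σ j • t • ε := by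
        rw [hdec]; module
      simp only
      rw [h1, norm_smul, Real.norm_eq_abs, abs_of_pos (hσ0 j), norm_smul, Real.norm_eq_abs,
        abs_of_nonneg (by linarith [ht.1])]
      have h2 : t * ‖ε‖ ≤ 1 := mul_le_one₀ (by linarith [ht.2]) (norm_nonneg _)
        (norm_le_one_of_mem_Q hε)
      nlinarith [hσ0 j]
    · refine IsCompact.of_isClosed_subset (isCompact_closedBall 0 (2 * R + 3)) (hGc 0) ?_
      intro b hb
      have h1 := (hB0 (hb (1 / 2) ⟨by norm_num, by norm_num⟩)).1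
      simp only [mem_closedBall_zero_iff] at h1 ⊢
      have h2 : ‖(1 / 2 : ℝ) • e‖ ≤ 1 := by
        rw [norm_smul]
        have := norm_le_one_of_mem_Q he
        norm_num
        linarith
      calc ‖b‖ = ‖(b + (1 / 2 : ℝ) • e) - (1 / 2 : ℝ) • e‖ := by simp
        _ ≤ _ := norm_sub_le _ _
        _ ≤ _ := by linarith
  · intro j
    have hMpos : (0 : ℝ) < M (T j) := by linarith [hM4' j]
    have hPM : (P j : ℝ) ≤ M (T j) := by
      have : P j ≤ M (T j) := le_trans (by simp only [hT]; omega) (hM _)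
      exact_mod_cast this
    have hPpos : (0 : ℝ) < P j := by exact_mod_cast hP0 j
    refine ⟨T j, M (T j), by simp only [hT]; omega, hM _, by linarith [hM4 j], v (T j), hΦ _,
      σ (j + 1), ?_, ?_, ?_⟩
    · rw [hσs, sq, ← div_div]
      gcongr
      simp only [hσ]
      rw [one_div]
      exact inv_anti₀ hPpos hPM
    · rw [hσs]
      gcongr
      exact hσ1 j
    · have h1 := fun p : V m × V m => vol_shear (hW (T j)) p.1 p.2 (hσ0 j) 0
      have hsub : thickening (σ (j + 1)) (⋂ j, Bj j) ⊆ ⋃ p ∈ F j,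
          {z : V m × ℝ | ((σ j)⁻¹ • (z.1 - p.1 - z.2 • p.2), z.2 + 0) ∈ W (T j)} := by
        intro z hz
        obtain ⟨y, hy, hzy⟩ := mem_thickening_iff.1 hz
        have hy' := mem_iInter.1 hy (j + 1)
        simp only [hBj, mem_iUnion] at hy'
        obtain ⟨p', hp', hy1, hy2⟩ := hy'
        have hd' := hd _ _ hp'
        obtain ⟨p, hp, ν, rfl⟩ := (hFs j p').1 hp'
        simp only [mem_iUnion]
        refine ⟨p, hp, ?_⟩
        simp only [mem_ofPred_eq, add_zero]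
        rw [Prod.dist_eq, max_lt_iff, dist_eq_norm, Real.dist_eq, abs_lt] at hzy
        have hs4 : σ (j + 1) ≤ 1 / 4 := (hσs' j).trans (by linarith [hσ1 j])
        refine (ha _ _ (gr_mem_Q ν)).2 z.2
          ⟨by linarith [hy1.1, hzy.2.1], by linarith [hy1.2, hzy.2.2]⟩ _ ?_
        set p' := child (σ j) (a (T j)) (p, ν) with hp'def
        have h2 : (σ j)⁻¹ • (z.1 - p.1 - z.2 • p.2) - (a (T j) (gr _ ν) + z.2 • gr _ ν) =
            (σ j)⁻¹ • ((z.1 - y.1) + (y.1 - (p'.1 + y.2 • p'.2)) + (y.2 - z.2) • p'.2) := by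
          simp only [hp'def, child]
          have := (hσ0 j).ne'
          match_scalars <;> field_simp <;> ring
        have h3 : ‖(y.2 - z.2) • p'.2‖ ≤ 2 * σ (j + 1) := by
          rw [norm_smul, Real.norm_eq_abs]
          have : |y.2 - z.2| ≤ σ (j + 1) := abs_le.2 ⟨by linarith [hzy.2.2], by linarith [hzy.2.1]⟩
          nlinarith [abs_nonneg (y.2 - z.2), norm_nonneg p'.2, hσ0 (j + 1)]
        have h4 : ‖(z.1 - y.1) + (y.1 - (p'.1 + y.2 • p'.2)) + (y.2 - z.2) • p'.2‖ ≤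
            (2 * R + 5) * σ (j + 1) := norm_add₃_le.trans (by linarith [hzy.1])
        rw [h2, norm_smul, Real.norm_eq_abs, abs_of_pos (inv_pos.2 (hσ0 j))]
        refine (mul_le_mul_of_nonneg_left h4 (inv_pos.2 (hσ0 j)).le).trans (le_of_eq ?_)
        rw [hσs]
        have := (hσ0 j).ne'
        field_simp
      refine (measure_mono hsub).trans ((measure_biUnion_finset_le _ _).trans ?_)
      simp only [(h1 _).2, Finset.sum_const, nsmul_eq_mul]
      calc ((F j).card : ℝ≥0∞) * (ENNReal.ofReal (σ j ^ m) * volume (W (T j)))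
          ≤ ((P j ^ m : ℕ) : ℝ≥0∞) * (ENNReal.ofReal (σ j ^ m) * v (T j)) := by
            gcongr
            · exact hcard j
            · exact hWv _
        _ = v (T j) := by
            rw [← mul_assoc, ← ENNReal.ofReal_natCast, ← ENNReal.ofReal_mul (by positivity)]
            simp only [hσ, Nat.cast_pow]
            rw [← mul_pow, mul_inv_cancel₀ hPpos.ne']
            simp

end Pool.Agent.P.MP_4ae480_an
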