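import Mathlib

set_option autoImplicit false

open MeasureTheory Set Metric
open scoped ENNReal

namespace Pool.Agent.P.MP_4ae480_an

abbrev V (m : ℕ) := Fin m → ℝ

/-- the half-open unit cube of slopes -/
def Q (m : ℕ) : Set (V m) := {e | ∀ i, 0 ≤ e i ∧ e i < 1}

/-- grid point -/
noncomputable def gr {m : ℕ} (N : ℕ) (ν : Fin m → Fin N) : V m := fun i => (ν i : ℝ) / N

theorem norm_le_one_of_mem_Q {m : ℕ} {e : V m} (he : e ∈ Q m) : ‖e‖ ≤ 1 := by
  refine (pi_norm_le_iff_of_nonneg zero_le_one).2 fun i => ?_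
  rw [Real.norm_eq_abs, abs_le]
  constructor <;> linarith [(he i).1, (he i).2]

theorem gr_mem_Q {m N : ℕ} (ν : Fin m → Fin N) : gr N ν ∈ Q m := by
  intro i
  have h : (0 : ℝ) < N := by
    have := (ν i).pos
    exact_mod_cast this
  refine ⟨by unfold gr; positivity, ?_⟩
  unfold gr
  rw [div_lt_one h]
  exact_mod_cast (ν i).2

theorem exists_digit {m N : ℕ} (hN : 0 < N) {e : V m} (he : e ∈ Q m) :
    ∃ (ν : Fin m → Fin N) (ε : V m), ε ∈ Q m ∧ e = gr N ν + (N : ℝ)⁻¹ • ε := by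
  have hN' : (0 : ℝ) < N := by exact_mod_cast hN
  have h1 : ∀ i, ⌊(N : ℝ) * e i⌋₊ < N := by
    intro i
    rw [Nat.floor_lt (mul_nonneg hN'.le (he i).1)]
    nlinarith [(he i).2]
  refine ⟨fun i => ⟨_, h1 i⟩, fun i => (N : ℝ) * e i - ⌊(N : ℝ) * e i⌋₊, fun i => ?_, ?_⟩
  · have h2 := Nat.floor_le (mul_nonneg hN'.le (he i).1)
    have h3 := Nat.lt_floor_add_one ((N : ℝ) * e i)
    constructor <;> simp only <;> linarith
  · funext i
    simp only [gr, Pi.add_apply, Pi.smul_apply, smul_eq_mul]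
    field_simp
    ring

theorem vol_shear {m : ℕ} {W : Set (V m × ℝ)} (hW : MeasurableSet W) (b d : V m) {r : ℝ}
    (hr : 0 < r) (u : ℝ) :
    MeasurableSet {p : V m × ℝ | (r⁻¹ • (p.1 - b - p.2 • d), p.2 + u) ∈ W} ∧
    volume {p : V m × ℝ | (r⁻¹ • (p.1 - b - p.2 • d), p.2 + u) ∈ W} =
      ENNReal.ofReal (r ^ m) * volume W := by
  have hc : Continuous fun p : V m × ℝ => (r⁻¹ • (p.1 - b - p.2 • d), p.2 + u) := by fun_prop
  have hm : MeasurableSet {p : V m × ℝ | (r⁻¹ • (p.1 - b - p.2 • d), p.2 + u) ∈ W} :=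
    hc.measurable hW
  refine ⟨hm, ?_⟩
  rw [Measure.volume_eq_prod, Measure.prod_apply_symm hm, Measure.prod_apply_symm hW]
  have h1 : ∀ t : ℝ, volume ((fun x : V m => (x, t)) ⁻¹'
      {p : V m × ℝ | (r⁻¹ • (p.1 - b - p.2 • d), p.2 + u) ∈ W}) =
      ENNReal.ofReal (r ^ m) * volume ((fun x : V m => (x, t + u)) ⁻¹' W) := by
    intro t
    have : ((fun x : V m => (x, t)) ⁻¹'
      {p : V m × ℝ | (r⁻¹ • (p.1 - b - p.2 • d), p.2 + u) ∈ W}) =
        (fun x : V m => x + (-b - t • d)) ⁻¹'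
          ((r⁻¹ • ·) ⁻¹' ((fun x : V m => (x, t + u)) ⁻¹' W)) := by
      ext x
      simp only [mem_preimage, mem_ofPred_eq]
      congr! 3
      abel
    rw [this, measure_preimage_add_right, Measure.addHaar_preimage_smul _ (inv_ne_zero hr.ne')]
    congr 2
    simp [abs_of_pos (pow_pos hr m)]
  simp_rw [h1]
  rw [lintegral_const_mul' _ _ ENNReal.ofReal_ne_top]
  congr 1
  exact lintegral_add_right_eq_self (fun t : ℝ => volume ((fun x : V m => (x, t)) ⁻¹' W)) u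

/-- There are lines of all slopes in `Q`, whose `ρ`-neighbourhoods over the heights in `U` lie
in a set of volume at most `v`. -/
def Good (m : ℕ) (R ρ : ℝ) (U : Set ℝ) (v : ℝ≥0∞) : Prop :=
  ∃ (a : V m → V m) (W : Set (V m × ℝ)), MeasurableSet W ∧ volume W ≤ v ∧
    ∀ e ∈ Q m, ‖a e‖ ≤ R ∧ ∀ t ∈ U, ∀ x : V m, ‖x - (a e + t • e)‖ ≤ ρ → (x, t) ∈ W

theorem Good.mono {m : ℕ} {R ρ : ℝ} {U : Set ℝ} {v v' : ℝ≥0∞} (h : Good m R ρ U v)
    (hv : v ≤ v') : Good m R ρ U v' := by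
  obtain ⟨a, W, h1, h2, h3⟩ := h
  exact ⟨a, W, h1, h2.trans hv, h3⟩

theorem good_base (m : ℕ) {R L : ℝ} (hR : 0 ≤ R) (hL : 0 ≤ L) {U : Set ℝ} (hU : MeasurableSet U)
    (hU1 : U ⊆ Icc 0 1) :
    Good m R L U (ENNReal.ofReal ((2 * (L + 1)) ^ m) * volume U) := by
  refine ⟨fun _ => 0, closedBall 0 (L + 1) ×ˢ U, measurableSet_closedBall.prod hU, ?_, ?_⟩
  · rw [Measure.volume_eq_prod, Measure.prod_prod, Real.volume_pi_closedBall _ (by linarith)]
    simp
  · intro e he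
    refine ⟨by simpa using hR, fun t ht x hx => ⟨?_, ht⟩⟩
    have h1 : ‖t • e‖ ≤ 1 := by
      rw [norm_smul, Real.norm_eq_abs, abs_of_nonneg (hU1 ht).1]
      exact mul_le_one₀ (hU1 ht).2 (norm_nonneg _) (norm_le_one_of_mem_Q he)
    simp only [zero_add] at hx
    rw [mem_closedBall_zero_iff]
    calc ‖x‖ = ‖(x - t • e) + t • e‖ := by simp
      _ ≤ ‖x - t • e‖ + ‖t • e‖ := norm_add_le _ _
      _ ≤ L + 1 := add_le_add hx h1

theorem exists_shift {ι : Type} [Fintype ι] {k : ℝ} (hk : 0 ≤ k) (S : ι → Set ℝ)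
    (hS : ∀ ν, MeasurableSet (S ν)) (hSk : ∀ ν, S ν ⊆ Icc (-k) k) {U : Set ℝ}
    (hU : MeasurableSet U) (hU1 : U ⊆ Icc 0 1) :
    ∃ u ∈ Icc (-k - 1) k, (∑ ν, volume (S ν)) * volume U / ENNReal.ofReal (2 * k + 1) ≤
      ∑ ν, volume (U ∩ {t | t + u ∈ S ν}) := by
  set I := Icc (-k - 1) k with hI
  have hvI : volume I = ENNReal.ofReal (2 * k + 1) := by
    rw [hI, Real.volume_Icc]; congr 1; ring
  have hint : ∀ ν, ∫⁻ u in I, volume (U ∩ {t | t + u ∈ S ν}) = volume (S ν) * volume U := by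
    intro ν
    have hmeas : MeasurableSet {p : ℝ × ℝ | p.1 ∈ I ∧ p.2 ∈ U ∧ p.2 + p.1 ∈ S ν} := by
      refine (measurable_fst measurableSet_Icc).inter ((measurable_snd hU).inter ?_)
      exact (measurable_snd.add measurable_fst) (hS ν)
    have h1 := Measure.prod_apply (μ := (volume : Measure ℝ)) (ν := (volume : Measure ℝ)) hmeas
    have h2 := Measure.prod_apply_symm (μ := (volume : Measure ℝ)) (ν := (volume : Measure ℝ))
      hmeas
    have h3 : ∫⁻ u in I, volume (U ∩ {t | t + u ∈ S ν}) = ∫⁻ x : ℝ, volume (Prod.mk x ⁻¹'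
        {p : ℝ × ℝ | p.1 ∈ I ∧ p.2 ∈ U ∧ p.2 + p.1 ∈ S ν}) := by
      rw [← lintegral_indicator measurableSet_Icc]
      congr 1
      funext u
      by_cases hu : u ∈ I
      · rw [indicator_of_mem hu]
        congr 1
        ext t
        simp [hu]
      · rw [indicator_of_notMem hu]
        have : Prod.mk u ⁻¹' {p : ℝ × ℝ | p.1 ∈ I ∧ p.2 ∈ U ∧ p.2 + p.1 ∈ S ν} = ∅ := by
          ext t
          simp [hu]
        rw [this, measure_empty]
    have h4 : ∫⁻ y : ℝ, volume ((fun x : ℝ => (x, y)) ⁻¹'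
        {p : ℝ × ℝ | p.1 ∈ I ∧ p.2 ∈ U ∧ p.2 + p.1 ∈ S ν}) = ∫⁻ _ in U, volume (S ν) := by
      rw [← lintegral_indicator hU]
      congr 1
      funext t
      by_cases ht : t ∈ U
      · rw [indicator_of_mem ht, ← measure_preimage_add volume t (S ν)]
        congr 1
        ext u
        simp only [mem_preimage, mem_ofPred_eq, ht, true_and, and_iff_right_iff_imp]
        intro h
        have h5 := hSk ν h
        have h6 := hU1 ht
        constructor <;> linarith [h5.1, h5.2, h6.1, h6.2]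
      · rw [indicator_of_notMem ht]
        have : (fun x : ℝ => (x, t)) ⁻¹'
            {p : ℝ × ℝ | p.1 ∈ I ∧ p.2 ∈ U ∧ p.2 + p.1 ∈ S ν} = ∅ := by
          ext u
          simp [ht]
        rw [this, measure_empty]
    rw [h3, ← h1, h2, h4, setLIntegral_const]
  have hmeas : ∀ ν, Measurable fun u : ℝ => volume (U ∩ {t | t + u ∈ S ν}) := by
    intro ν
    have hmeas : MeasurableSet {p : ℝ × ℝ | p.2 ∈ U ∧ p.2 + p.1 ∈ S ν} :=
      (measurable_snd hU).inter ((measurable_snd.add measurable_fst) (hS ν))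
    exact measurable_measure_prodMk_left hmeas
  have htot : ∫⁻ u in I, ∑ ν, volume (U ∩ {t | t + u ∈ S ν}) =
      (∑ ν, volume (S ν)) * volume U := by
    rw [lintegral_finsetSum _ fun ν _ => hmeas ν, Finset.sum_mul]
    exact Finset.sum_congr rfl fun ν _ => hint ν
  have hfin : (∑ ν, volume (S ν)) * volume U ≠ ∞ := by
    refine ENNReal.mul_ne_top ?_ ?_
    · refine ENNReal.sum_ne_top.2 fun ν _ => ?_
      exact ((measure_mono (hSk ν)).trans_lt measure_Icc_lt_top).ne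
    · exact ((measure_mono hU1).trans_lt measure_Icc_lt_top).ne
  obtain ⟨u, hu, h⟩ := exists_setLAverage_le (μ := volume) (s := I)
    (f := fun u => ∑ ν, volume (U ∩ {t | t + u ∈ S ν}))
    (by rw [hvI]; simp; linarith) measurableSet_Icc.nullMeasurableSet (by rw [htot]; exact hfin)
  refine ⟨u, hu, ?_⟩
  rw [setLAverage_eq, htot, hvI] at h
  exact h

/-- A one-scale configuration: a set of volume at most `w` that contains, for each grid slope, the
`L / N`-neighbourhood of part of a line, the parts having average length at least `lam`. -/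
def Gadget (m N : ℕ) (k L : ℝ) (lam w : ℝ≥0∞) : Prop :=
  ∃ (A : Set (V m × ℝ)) (α : (Fin m → Fin N) → V m) (S : (Fin m → Fin N) → Set ℝ),
    MeasurableSet A ∧ volume A ≤ w ∧
    (∀ ν, ‖α ν‖ ≤ k ∧ MeasurableSet (S ν) ∧ S ν ⊆ Icc (-k) k ∧
      ∀ t ∈ S ν, ∀ x : V m, ‖x - (α ν + t • gr N ν)‖ ≤ L / N → (x, t) ∈ A) ∧
    lam * (N : ℝ≥0∞) ^ m ≤ ∑ ν, volume (S ν)

theorem good_step {m N : ℕ} (hN : 2 ≤ N) {k L R ρ : ℝ} (hk : 0 ≤ k) (hR : 2 * (2 * k + 1) ≤ R)
    (hρ : ρ ≤ L) {lam w c₁ c₂ : ℝ≥0∞} (hG : Gadget m N k (L + R + 1) lam w)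
    (IH : ∀ U : Set ℝ, MeasurableSet U → U ⊆ Icc 0 1 → Good m R ρ U (c₁ + c₂ * volume U))
    {U : Set ℝ} (hU : MeasurableSet U) (hU1 : U ⊆ Icc 0 1) :
    Good m R (ρ / N) U
      (w + c₁ + c₂ * (1 - lam / ENNReal.ofReal (2 * k + 1)) * volume U) := by
  obtain ⟨A, α, S, hA, hAw, hS, hlam⟩ := hG
  obtain ⟨u, hu, hsum⟩ := exists_shift hk S (fun ν => (hS ν).2.1) (fun ν => (hS ν).2.2.1) hU hU1
  have hN0 : 0 < N := by omega
  have hN' : (0 : ℝ) < N := by exact_mod_cast hN0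
  have hN2 : (2 : ℝ) ≤ N := by exact_mod_cast hN
  have hSm : ∀ ν, MeasurableSet {t : ℝ | t + u ∈ S ν} := fun ν =>
    (measurable_add_const u) (hS ν).2.1
  have hUν : ∀ ν, MeasurableSet (U \ {t : ℝ | t + u ∈ S ν}) := fun ν => hU.diff (hSm ν)
  choose a W hW hWv ha using fun ν => IH _ (hUν ν) (sdiff_subset.trans hU1)
  have : Nonempty (Fin N) := ⟨⟨0, hN0⟩⟩
  choose! ν ε hε hdec using fun e (he : e ∈ Q m) => exists_digit hN0 he
  have hr : (0 : ℝ) < (N : ℝ)⁻¹ := inv_pos.2 hN'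
  have h0 := vol_shear hA 0 0 one_pos u
  have h1 := fun ν => vol_shear (hW ν) (α ν + u • gr N ν) (gr N ν) hr 0
  refine ⟨fun e => α (ν e) + u • gr N (ν e) + (N : ℝ)⁻¹ • a (ν e) (ε e),
    _ ∪ ⋃ ν, _, h0.1.union (MeasurableSet.iUnion fun ν => (h1 ν).1), ?_, ?_⟩
  · have hU' : volume U ≠ ∞ := ((measure_mono hU1).trans_lt measure_Icc_lt_top).ne
    have hNm : ENNReal.ofReal ((N : ℝ)⁻¹ ^ m) * (N : ℝ≥0∞) ^ m = 1 := by
      rw [← ENNReal.ofReal_natCast, ← ENNReal.ofReal_pow hN'.le, ← ENNReal.ofReal_mul (by positivity),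
        ← mul_pow, inv_mul_cancel₀ hN'.ne', one_pow, ENNReal.ofReal_one]
    have hcard : ∑ _ν : Fin m → Fin N, (1 : ℝ≥0∞) = (N : ℝ≥0∞) ^ m := by simp
    have hdiff : ∑ ν, volume (U \ {t : ℝ | t + u ∈ S ν}) ≤
        (N : ℝ≥0∞) ^ m * ((1 - lam / ENNReal.ofReal (2 * k + 1)) * volume U) := by
      have h2 : ∑ ν, volume (U ∩ {t : ℝ | t + u ∈ S ν}) +
          ∑ ν, volume (U \ {t : ℝ | t + u ∈ S ν}) = (N : ℝ≥0∞) ^ m * volume U := by
        rw [← Finset.sum_add_distrib, ← hcard, Finset.sum_mul]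
        refine Finset.sum_congr rfl fun ν _ => ?_
        rw [one_mul, measure_inter_add_sdiff _ (hSm ν)]
      have h3 : lam / ENNReal.ofReal (2 * k + 1) * ((N : ℝ≥0∞) ^ m * volume U) ≤
          ∑ ν, volume (U ∩ {t : ℝ | t + u ∈ S ν}) := by
        refine le_trans ?_ hsum
        calc lam / ENNReal.ofReal (2 * k + 1) * ((N : ℝ≥0∞) ^ m * volume U)
            = lam * (N : ℝ≥0∞) ^ m * volume U / ENNReal.ofReal (2 * k + 1) := by
              simp only [div_eq_mul_inv]; ring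
          _ ≤ _ := by gcongr
      have hX : (N : ℝ≥0∞) ^ m * volume U ≠ ∞ := ENNReal.mul_ne_top (by simp) hU'
      have hfin : ∑ ν, volume (U ∩ {t : ℝ | t + u ∈ S ν}) ≠ ∞ :=
        ne_top_of_le_ne_top hX (h2 ▸ le_self_add)
      calc ∑ ν, volume (U \ {t : ℝ | t + u ∈ S ν})
          = (N : ℝ≥0∞) ^ m * volume U - ∑ ν, volume (U ∩ {t : ℝ | t + u ∈ S ν}) := by
            rw [← h2, ENNReal.add_sub_cancel_left hfin]
        _ ≤ (N : ℝ≥0∞) ^ m * volume U -
            lam / ENNReal.ofReal (2 * k + 1) * ((N : ℝ≥0∞) ^ m * volume U) :=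
            tsub_le_tsub_left h3 _
        _ = (1 - lam / ENNReal.ofReal (2 * k + 1)) * ((N : ℝ≥0∞) ^ m * volume U) := by
            rw [ENNReal.sub_mul fun _ _ => hX, one_mul]
        _ = _ := by ring
    calc volume (_ ∪ ⋃ ν, _) ≤ _ + _ := measure_union_le _ _
      _ ≤ w + ∑ ν, ENNReal.ofReal ((N : ℝ)⁻¹ ^ m) *
          (c₁ + c₂ * volume (U \ {t : ℝ | t + u ∈ S ν})) := by
          refine add_le_add ?_ ((measure_iUnion_fintype_le _ _).trans ?_)
          · rw [h0.2]; simpa using hAw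
          · refine Finset.sum_le_sum fun ν _ => ?_
            rw [(h1 ν).2]
            gcongr
            exact hWv ν
      _ = w + (c₁ + c₂ * (ENNReal.ofReal ((N : ℝ)⁻¹ ^ m) *
          ∑ ν, volume (U \ {t : ℝ | t + u ∈ S ν}))) := by
          congr 1
          rw [← Finset.mul_sum, Finset.sum_add_distrib, ← Finset.mul_sum, mul_add]
          congr 1
          · simp only [Finset.sum_const, Finset.card_univ, Fintype.card_pi, Fintype.card_fin,
              Finset.prod_const, nsmul_eq_mul, Nat.cast_pow]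
            rw [← mul_assoc, hNm, one_mul]
          · ring
      _ ≤ w + (c₁ + c₂ * (ENNReal.ofReal ((N : ℝ)⁻¹ ^ m) *
          ((N : ℝ≥0∞) ^ m * ((1 - lam / ENNReal.ofReal (2 * k + 1)) * volume U)))) := by gcongr
      _ = _ := by rw [← mul_assoc (ENNReal.ofReal _), hNm]; ring
  · intro e he
    have hg := norm_le_one_of_mem_Q (gr_mem_Q (ν e))
    have hε1 := norm_le_one_of_mem_Q (hε e he)
    obtain ⟨haR, hcov⟩ := ha (ν e) (ε e) (hε e he)
    have hR0 : 0 ≤ R := by linarith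
    have hinv : (N : ℝ)⁻¹ ≤ 1 / 2 := by
      rw [inv_eq_one_div]; exact one_div_le_one_div_of_le two_pos hN2
    constructor
    · have h2 : ‖u • gr N (ν e)‖ ≤ k + 1 := by
        rw [norm_smul, Real.norm_eq_abs]
        have : |u| ≤ k + 1 := abs_le.2 ⟨by linarith [hu.1], by linarith [hu.2]⟩
        nlinarith [abs_nonneg u, norm_nonneg (gr N (ν e))]
      have h3 : ‖(N : ℝ)⁻¹ • a (ν e) (ε e)‖ ≤ R / 2 := by
        rw [norm_smul, Real.norm_eq_abs, abs_of_pos hr]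
        nlinarith [norm_nonneg (a (ν e) (ε e))]
      calc _ ≤ ‖α (ν e)‖ + ‖u • gr N (ν e)‖ + ‖(N : ℝ)⁻¹ • a (ν e) (ε e)‖ := norm_add₃_le
        _ ≤ R := by linarith [(hS (ν e)).1]
    · intro t ht x hx
      have ht1 := hU1 ht
      by_cases hc : t + u ∈ S (ν e)
      · left
        have h2 := (hS (ν e)).2.2.2 _ hc x ?_
        · simpa using h2
        have h3 : x - (α (ν e) + (t + u) • gr N (ν e)) =
            (x - (α (ν e) + u • gr N (ν e) + (N : ℝ)⁻¹ • a (ν e) (ε e) + t • e)) +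
              (N : ℝ)⁻¹ • a (ν e) (ε e) + (N : ℝ)⁻¹ • t • ε e := by
          conv_rhs => rw [show t • e = t • (gr N (ν e) + (N : ℝ)⁻¹ • ε e) by rw [← hdec e he]]
          module
        have h4 : ‖(N : ℝ)⁻¹ • a (ν e) (ε e)‖ ≤ R / N := by
          rw [norm_smul, Real.norm_eq_abs, abs_of_pos hr, div_eq_inv_mul]
          gcongr
        have h5 : ‖(N : ℝ)⁻¹ • t • ε e‖ ≤ 1 / N := by
          rw [norm_smul, Real.norm_eq_abs, abs_of_pos hr, div_eq_inv_mul, norm_smul,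
            Real.norm_eq_abs, abs_of_nonneg ht1.1]
          gcongr
          exact mul_le_one₀ ht1.2 (norm_nonneg _) hε1
        have h6 : ρ / N ≤ L / N := by gcongr
        rw [h3]
        refine norm_add₃_le.trans ?_
        rw [add_div, add_div]
        linarith
      · right
        refine mem_iUnion.2 ⟨ν e, ?_⟩
        simp only [mem_ofPred_eq, add_zero]
        refine hcov t ⟨ht, hc⟩ _ ?_
        have h3 : (N : ℝ)⁻¹⁻¹ • (x - (α (ν e) + u • gr N (ν e)) - t • gr N (ν e)) -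
            (a (ν e) (ε e) + t • ε e) = (N : ℝ) •
            (x - (α (ν e) + u • gr N (ν e) + (N : ℝ)⁻¹ • a (ν e) (ε e) + t • e)) := by
          conv_rhs => rw [show t • e = t • (gr N (ν e) + (N : ℝ)⁻¹ • ε e) by rw [← hdec e he]]
          rw [inv_inv]
          match_scalars <;> field_simp
          ring
        rw [h3, norm_smul, Real.norm_eq_abs, abs_of_pos hN']
        rwa [le_div_iff₀' hN'] at hx

theorem good_iter {m N : ℕ} (hN : 2 ≤ N) {k L R : ℝ} (hk : 0 ≤ k) (hR : 2 * (2 * k + 1) ≤ R)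
    (hL : 0 ≤ L) {lam w : ℝ≥0∞} (hG : Gadget m N k (L + R + 1) lam w) (K : ℕ) :
    ∀ U : Set ℝ, MeasurableSet U → U ⊆ Icc 0 1 → Good m R (L / (N : ℝ) ^ K) U
      (K * w + ENNReal.ofReal ((2 * (L + 1)) ^ m) *
        (1 - lam / ENNReal.ofReal (2 * k + 1)) ^ K * volume U) := by
  induction K with
  | zero =>
    intro U hU hU1
    simpa using good_base m (by linarith) hL hU hU1
  | succ K ih =>
    intro U hU hU1
    have hN1 : (1 : ℝ) ≤ N := by exact_mod_cast (by omega : 1 ≤ N)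
    have h := good_step hN hk hR (div_le_self hL (one_le_pow₀ hN1)) hG ih hU hU1
    rw [div_div, ← pow_succ] at h
    refine h.mono (le_of_eq ?_)
    push_cast
    ring

end Pool.Agent.P.MP_4ae480_an
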